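import Pool.Agent.BED.Stmts

set_option autoImplicit false

/-!
# Squad BED (MP_be01ff_an), row KGA: the invariant functions form a closed subspace
-/

namespace Pool.Agent.BED.H75

open Set Filter Topology MeasureTheory
open Pool.Agent.BE01 Pool.Agent.BED

theorem mp_mu {d : ℕ} {Ω : Set (En d)} (hΩ : Dom Ω) (g : En d ≃ₗᵢ[ℝ] En d)
    (hg : ∀ x, g x ∈ Ω ↔ x ∈ Ω) : MeasurePreserving g (mu Ω) (mu Ω) := by
  have h1 : MeasurePreserving g (volume : Measure (En d)) volume := g.measurePreserving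
  have h2 := h1.restrict_preimage hΩ.1.measurableSet
  have h3 : g ⁻¹' Ω = Ω := by
    ext x
    exact hg x
  rw [h3] at h2
  exact h2

theorem kga : KgaStmt := by
  intro d Ω G hΩ hG
  haveI : Fact ((1 : ENNReal) ≤ 2) := ⟨by norm_num⟩
  let T : G → (Lp ℝ 2 (mu Ω) →ₗ[ℝ] Lp ℝ 2 (mu Ω)) := fun g =>
    (Lp.compMeasurePreservingₗᵢ ℝ (g : En d → En d)
      (mp_mu hΩ g.1 (hG g.1 g.2))).toLinearMap
  have hT : ∀ (g : G) (u : Lp ℝ 2 (mu Ω)), T g u = u ↔ (fun x => u (g.1 x)) =ᵐ[mu Ω] u := by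
    intro g u
    have e : (T g u : En d → ℝ) =ᵐ[mu Ω] fun x => u (g.1 x) :=
      Lp.coeFn_compMeasurePreserving u (mp_mu hΩ g.1 (hG g.1 g.2))
    constructor
    · intro h
      rw [h] at e
      exact e.symm
    · intro h
      apply Lp.ext
      exact e.trans h
  refine ⟨⨅ g : G, LinearMap.eqLocus (T g) LinearMap.id, ?_, ?_⟩
  · have e : ((⨅ g : G, LinearMap.eqLocus (T g) LinearMap.id :
        Submodule ℝ (Lp ℝ 2 (mu Ω))) : Set (Lp ℝ 2 (mu Ω))) =
        ⋂ g : G, {u | T g u = u} := by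
      rw [Submodule.coe_iInf]
      rfl
    rw [e]
    refine isClosed_iInter fun g => ?_
    refine isClosed_eq ?_ continuous_id
    exact (Lp.compMeasurePreservingₗᵢ ℝ (g : En d → En d)
      (mp_mu hΩ g.1 (hG g.1 g.2))).continuous
  · intro u
    rw [Submodule.mem_iInf]
    constructor
    · intro h g hg
      exact (hT ⟨g, hg⟩ u).1 (h ⟨g, hg⟩)
    · intro h g
      exact (hT g u).2 (h g.1 g.2)

end Pool.Agent.BED.H75
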